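import Pool.Agent.StrongChow.Degree
import Pool.Agent.Helper74.CW.Defs

/-!
# Factors of homogeneous cubic forms
-/

namespace Pool.Agent.Helper74.CW

open Module Polynomial

variable {F : Type*} [Field F]

theorem linear_factor {C : MvPolynomial (Fin 3) F} (hC : C.IsHomogeneous 3) (h : ¬ Irreducible C) :
    ∃ L Q : MvPolynomial (Fin 3) F, L ≠ 0 ∧ L.IsHomogeneous 1 ∧ C = L * Q := by
  by_cases h0 : C = 0
  · exact ⟨MvPolynomial.X 0, 0, MvPolynomial.X_ne_zero _, MvPolynomial.isHomogeneous_X _ _, by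
      rw [h0, mul_zero]⟩
  have hunit : ∀ {A : MvPolynomial (Fin 3) F}, A ≠ 0 → A.IsHomogeneous 0 → IsUnit A := by
    intro A hA hA0
    have h1 : A.totalDegree = 0 := hA0.totalDegree hA
    rw [MvPolynomial.totalDegree_eq_zero_iff_eq_C] at h1
    rw [h1]
    refine (isUnit_iff_ne_zero.2 ?_).map MvPolynomial.C
    intro h2
    rw [h2, map_zero] at h1
    exact hA h1
  have hnu : ¬ IsUnit C := by
    intro hu
    obtain ⟨D, hD⟩ := hu.exists_right_inv
    have h1 : C * D ≠ 0 := by rw [hD]; exact one_ne_zero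
    have h2 : (C * D).IsWeightedHomogeneous 1 0 := by
      rw [hD]; exact MvPolynomial.isHomogeneous_one _ _
    obtain ⟨β, h3, h4⟩ := Pool.Agent.StrongChow.degree_of_mul h2 h1 hC
    omega
  rw [irreducible_iff] at h
  push Not at h
  obtain ⟨A, B, hAB, hA, hB⟩ := h hnu
  have hne : A * B ≠ 0 := by rw [← hAB]; exact h0
  have hhom : (A * B).IsWeightedHomogeneous 1 3 := by rw [← hAB]; exact hC
  obtain ⟨α, hα⟩ := Pool.Agent.StrongChow.homogeneous_of_mul hhom hne
  obtain ⟨β, hβ, hαβ⟩ := Pool.Agent.StrongChow.degree_of_mul hhom hne hα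
  have hα0 : α ≠ 0 := by
    rintro rfl
    exact hA (hunit (left_ne_zero_of_mul hne) hα)
  have hβ0 : β ≠ 0 := by
    rintro rfl
    exact hB (hunit (right_ne_zero_of_mul hne) hβ)
  by_cases h1 : α = 1
  · subst h1
    exact ⟨A, B, left_ne_zero_of_mul hne, hα, hAB⟩
  · have h2 : β = 1 := by omega
    subst h2
    exact ⟨B, A, right_ne_zero_of_mul hne, hβ, by rw [hAB, mul_comm]⟩

/-- a linear factor vanishes on a line -/
theorem line_of_linear_factor {L Q : MvPolynomial (Fin 3) F} (hL : L.IsHomogeneous 1) :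
    ∃ v w : Fin 3 → F, LinearIndependent F ![v, w] ∧
      MvPolynomial.aeval (fun i => (C (v i) + Polynomial.X * C (w i) : F[X])) (L * Q) = 0 := by
  have h1 : L ∈ MvPolynomial.homogeneousSubmodule (Fin 3) F 1 := hL
  rw [MvPolynomial.homogeneousSubmodule_one_eq_span_X,
    Submodule.mem_span_range_iff_exists_fun] at h1
  obtain ⟨c, hc⟩ := h1
  -- the linear form
  let φ : (Fin 3 → F) →ₗ[F] F := ∑ i, c i • LinearMap.proj i
  have hφ : ∀ v, φ v = ∑ i, c i * v i := by
    intro v
    simp [φ]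
  have h2 := LinearMap.finrank_range_add_finrank_ker φ
  have h3 : finrank F (LinearMap.range φ) ≤ 1 := by
    refine (Submodule.finrank_le _).trans ?_
    rw [finrank_self]
  have h4 : finrank F (Fin 3 → F) = 3 := by simp
  have h5 : 1 < finrank F (LinearMap.ker φ) := by omega
  have hnt : Nontrivial (LinearMap.ker φ) := by
    apply nontrivial_of_finrank_pos (R := F)
    omega
  obtain ⟨x, hx⟩ := exists_ne (0 : LinearMap.ker φ)
  obtain ⟨y, hy⟩ := exists_linearIndependent_pair_of_one_lt_finrank h5 hx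
  refine ⟨x, y, ?_, ?_⟩
  · have h6 := hy.map' (LinearMap.ker φ).subtype (Submodule.ker_subtype _)
    have e : ((LinearMap.ker φ).subtype : LinearMap.ker φ → Fin 3 → F) ∘ ![x, y] =
        ![(x : Fin 3 → F), (y : Fin 3 → F)] := by
      funext i
      fin_cases i <;> rfl
    rw [e] at h6
    exact h6
  · have hx0 : ∑ i, c i * (x : Fin 3 → F) i = 0 := by
      rw [← hφ]; exact x.2
    have hy0 : ∑ i, c i * (y : Fin 3 → F) i = 0 := by
      rw [← hφ]; exact y.2
    rw [map_mul, ← hc, map_sum]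
    have h7 : ∑ i, MvPolynomial.aeval
        (fun i => (C ((x : Fin 3 → F) i) + Polynomial.X * C ((y : Fin 3 → F) i) : F[X]))
        (c i • (MvPolynomial.X i : MvPolynomial (Fin 3) F)) =
        C (∑ i, c i * (x : Fin 3 → F) i) + Polynomial.X * C (∑ i, c i * (y : Fin 3 → F) i) := by
      rw [map_sum, map_sum, Finset.mul_sum, ← Finset.sum_add_distrib]
      refine Finset.sum_congr rfl fun i _ => ?_
      rw [map_smul, MvPolynomial.aeval_X, C_mul, C_mul, Polynomial.smul_eq_C_mul]
      ring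
    rw [h7, hx0, hy0]
    simp

end Pool.Agent.Helper74.CW
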