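import Pool.Agent.Helper74.CW.LINE

/-!
# Pencils of singular matrices in the kernel
-/

namespace Pool.Agent.Helper74.CW

open Module Polynomial Matrix

variable {F K : Type*} [Field F] [Field K] [Algebra F K]

private lemma penc_mem {t s : Fin 3 → K} {X : Matrix (Fin 3) (Fin 3) F} :
    X ∈ NN F t s ↔ ∑ i, ∑ j, X i j • (t i * s j) = 0 := Iff.rfl

private lemma penc_transpose {t s : Fin 3 → K} {X : Matrix (Fin 3) (Fin 3) F} :
    X ∈ NN F t s ↔ Xᵀ ∈ NN F s t := by
  rw [penc_mem, penc_mem, Finset.sum_comm]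
  simp only [Matrix.transpose_apply, mul_comm]

private lemma penc_li {s : Fin 3 → K} (hs : LinearIndependent F s) {c : Fin 3 → F}
    (h : ∑ i, c i • s i = 0) : c = 0 := by
  funext i
  exact Fintype.linearIndependent_iff.1 hs c h i

/-- change of coordinates -/
private lemma penc_base {g : Matrix (Fin 3) (Fin 3) F} (hg : IsUnit g) (s : Fin 3 → K) :
    ∃ s' : Fin 3 → K, (LinearIndependent F s → LinearIndependent F s') ∧
      Submodule.span F (Set.range s') = Submodule.span F (Set.range s) ∧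
      ∀ (t : Fin 3 → K) (X : Matrix (Fin 3) (Fin 3) F), X ∈ NN F t s → X * g ∈ NN F t s' := by
  have hd : IsUnit g.det := (Matrix.isUnit_iff_isUnit_det g).1 hg
  have h1 : g * g⁻¹ = 1 := Matrix.mul_nonsing_inv g hd
  have h2 : g⁻¹ * g = 1 := Matrix.nonsing_inv_mul g hd
  have hgs : ∀ i, ∑ j, g i j • (∑ k, g⁻¹ j k • s k) = s i := by
    intro i
    have h3 : ∑ j, g i j • (∑ k, g⁻¹ j k • s k) = ∑ k, (g * g⁻¹) i k • s k := by
      simp only [Finset.smul_sum, smul_smul, Matrix.mul_apply, Finset.sum_smul]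
      rw [Finset.sum_comm]
    rw [h3, h1]
    simp [Matrix.one_apply]
  refine ⟨fun j => ∑ k, g⁻¹ j k • s k, ?_, ?_, ?_⟩
  · intro hs
    rw [Fintype.linearIndependent_iff]
    intro c hc
    have h3 : ∑ k, (∑ j, c j * g⁻¹ j k) • s k = 0 := by
      rw [← hc]
      simp only [Finset.smul_sum, smul_smul, Finset.sum_smul]
      rw [Finset.sum_comm]
    have h4 := penc_li hs h3
    have h5 : c ᵥ* g⁻¹ = 0 := by
      funext k
      exact congrFun h4 k
    have h6 : c = 0 := by
      have : c ᵥ* (g⁻¹ * g) = 0 := by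
        rw [← Matrix.vecMul_vecMul, h5, Matrix.zero_vecMul]
      rwa [h2, Matrix.vecMul_one] at this
    intro i
    rw [h6]; rfl
  · apply le_antisymm
    · rw [Submodule.span_le]
      rintro _ ⟨j, rfl⟩
      exact Submodule.sum_mem _ fun k _ =>
        Submodule.smul_mem _ _ (Submodule.subset_span ⟨k, rfl⟩)
    · rw [Submodule.span_le]
      rintro _ ⟨i, rfl⟩
      rw [← hgs i]
      exact Submodule.sum_mem _ fun k _ =>
        Submodule.smul_mem _ _ (Submodule.subset_span ⟨k, rfl⟩)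
  · intro t X hX
    rw [penc_mem] at hX ⊢
    rw [← hX]
    apply Finset.sum_congr rfl
    intro i _
    have h3 : ∀ j, X i j • (t i * s j) = ∑ k, (X i j * g j k) • (t i * ∑ l, g⁻¹ k l • s l) := by
      intro j
      conv_lhs => rw [← hgs j]
      rw [Finset.mul_sum, Finset.smul_sum]
      apply Finset.sum_congr rfl
      intro k _
      rw [mul_smul_comm, smul_smul]
    simp only [h3]
    rw [Finset.sum_comm]
    apply Finset.sum_congr rfl
    intro k _
    rw [Matrix.mul_apply, Finset.sum_smul]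

private lemma penc_sc {ξ x : K} {T : Submodule F K} : x ∈ sc ξ T ↔ ∃ t ∈ T, ξ * t = x := by
  unfold sc
  rw [Submodule.mem_map]
  rfl

private lemma penc_fin_sc {ξ : K} (hξ : ξ ≠ 0) (T : Submodule F K) :
    finrank F (sc ξ T) = finrank F T := by
  have h3 : Function.Injective (LinearMap.mulLeft F ξ) := by
    intro x y hxy
    simp only [LinearMap.mulLeft_apply] at hxy
    exact mul_left_cancel₀ hξ hxy
  unfold sc
  exact (LinearEquiv.finrank_eq (Submodule.equivMapOfInjective _ h3 _)).symm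

/-- the first column is zero -/
private lemma penc_col {t s : Fin 3 → K} (ht : LinearIndependent F t) (hs : LinearIndependent F s)
    {X : Matrix (Fin 3) (Fin 3) F} (hX : X ∈ NN F t s) (hX0 : ∀ i, X i 0 = 0) (hne : X ≠ 0)
    {α β : F} (hαβ : α • (∑ i, X i 1 • t i) + β • (∑ i, X i 2 • t i) = 0) : α = 0 ∧ β = 0 := by
  set A1 := ∑ i, X i 1 • t i with hA1
  set A2 := ∑ i, X i 2 • t i with hA2
  have hrel : A1 * s 1 + A2 * s 2 = 0 := by
    rw [← penc_mem.1 hX, hA1, hA2]
    simp only [Fin.sum_univ_three, hX0, zero_smul, zero_add, add_mul, smul_mul_assoc]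
    ring
  have hz : A1 = 0 ∧ A2 = 0 → False := by
    rintro ⟨h1, h2⟩
    apply hne
    have h3 := penc_li ht h1
    have h4 := penc_li ht h2
    ext i j
    fin_cases j
    · exact hX0 i
    · exact congrFun h3 i
    · exact congrFun h4 i
  by_contra hcon
  rw [not_and_or] at hcon
  rcases hcon with hα | hβ
  · -- A1 = -(β / α) A2
    have h1 : A1 = -(α⁻¹ * β) • A2 := by
      have h2 : α⁻¹ • (α • A1 + β • A2) = 0 := by rw [hαβ, smul_zero]
      rw [smul_add, smul_smul, smul_smul, inv_mul_cancel₀ hα, one_smul] at h2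
      rw [neg_smul]
      exact eq_neg_of_add_eq_zero_left h2
    rw [h1] at hrel
    have h2 : A2 * (s 2 - (α⁻¹ * β) • s 1) = 0 := by
      rw [← hrel, mul_sub, mul_smul_comm, neg_smul, neg_mul, smul_mul_assoc]
      ring
    rcases mul_eq_zero.1 h2 with h3 | h3
    · exact hz ⟨by rw [h1, h3, smul_zero], h3⟩
    · have h4 := penc_li hs (c := ![0, -(α⁻¹ * β), 1]) (by
        simp only [Fin.sum_univ_three, Matrix.cons_val_zero, Matrix.cons_val_one, Matrix.cons_val,
          zero_smul, one_smul, zero_add, neg_smul]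
        rw [← h3]; ring)
      have h5 := congrFun h4 2
      simp at h5
  · have h1 : A2 = -(β⁻¹ * α) • A1 := by
      have h2 : β⁻¹ • (α • A1 + β • A2) = 0 := by rw [hαβ, smul_zero]
      rw [smul_add, smul_smul, smul_smul, inv_mul_cancel₀ hβ, one_smul] at h2
      rw [neg_smul]
      exact eq_neg_of_add_eq_zero_right h2
    rw [h1] at hrel
    have h2 : A1 * (s 1 - (β⁻¹ * α) • s 2) = 0 := by
      rw [← hrel, mul_sub, mul_smul_comm, neg_smul, neg_mul, smul_mul_assoc]
      ring
    rcases mul_eq_zero.1 h2 with h3 | h3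
    · exact hz ⟨h3, by rw [h1, h3, smul_zero]⟩
    · have h4 := penc_li hs (c := ![0, 1, -(β⁻¹ * α)]) (by
        simp only [Fin.sum_univ_three, Matrix.cons_val_zero, Matrix.cons_val_one, Matrix.cons_val,
          zero_smul, one_smul, zero_add, neg_smul]
        rw [← h3]; ring)
      have h5 := congrFun h4 1
      simp at h5

/-- an invertible matrix with a given first column -/
private lemma penc_ext1 {k : Fin 3 → F} (hk : k ≠ 0) :
    ∃ g : Matrix (Fin 3) (Fin 3) F, IsUnit g ∧ ∀ i, g i 0 = k i := by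
  have h1 : LinearIndependent F ![k] := by
    rw [linearIndependent_unique_iff]
    exact hk
  obtain ⟨x, hx⟩ := exists_linearIndependent_snoc_of_lt_finrank h1 (by simp)
  obtain ⟨y, hy⟩ := exists_linearIndependent_snoc_of_lt_finrank hx (by simp)
  refine ⟨(Matrix.of (Fin.snoc (Fin.snoc ![k] x) y : Fin 3 → Fin 3 → F))ᵀ, ?_, ?_⟩
  · rw [← Matrix.linearIndependent_cols_iff_isUnit]
    exact hy
  · intro i
    rfl

/-- an invertible matrix with given first two columns -/
private lemma penc_ext2 {k k' : Fin 3 → F} (hk : LinearIndependent F ![k, k']) :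
    ∃ g : Matrix (Fin 3) (Fin 3) F, IsUnit g ∧ (∀ i, g i 0 = k i) ∧ ∀ i, g i 1 = k' i := by
  obtain ⟨y, hy⟩ := exists_linearIndependent_snoc_of_lt_finrank hk (by simp)
  refine ⟨(Matrix.of (Fin.snoc ![k, k'] y : Fin 3 → Fin 3 → F))ᵀ, ?_, ?_, ?_⟩
  · rw [← Matrix.linearIndependent_cols_iff_isUnit]
    exact hy
  · intro i
    rfl
  · intro i
    rfl

private lemma penc_comb {t : Fin 3 → K} (ht : LinearIndependent F t)
    {X Y : Matrix (Fin 3) (Fin 3) F} (hX0 : ∀ i, X i 0 = 0) (hY0 : ∀ i, Y i 0 = 0) {c : F}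
    (h1 : ∑ i, Y i 1 • t i = c • ∑ i, X i 1 • t i)
    (h2 : ∑ i, Y i 2 • t i = c • ∑ i, X i 2 • t i) : Y = c • X := by
  have h3 : ∑ i, (Y i 1 - c * X i 1) • t i = 0 := by
    simp only [sub_smul, mul_smul, Finset.sum_sub_distrib, ← Finset.smul_sum]
    rw [h1, sub_self]
  have h4 : ∑ i, (Y i 2 - c * X i 2) • t i = 0 := by
    simp only [sub_smul, mul_smul, Finset.sum_sub_distrib, ← Finset.smul_sum]
    rw [h2, sub_self]
  have h5 := penc_li ht h3
  have h6 := penc_li ht h4
  ext i j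
  fin_cases j
  · simp [hX0, hY0]
  · exact sub_eq_zero.1 (congrFun h5 i)
  · exact sub_eq_zero.1 (congrFun h6 i)

/-- case A, the first columns are zero -/
private lemma penc_A0 (hB : Big F K) {t s : Fin 3 → K} (ht : LinearIndependent F t)
    (hs : LinearIndependent F s) {X Y : Matrix (Fin 3) (Fin 3) F} (hX : X ∈ NN F t s)
    (hY : Y ∈ NN F t s) (hXY : ∀ c : F, Y ≠ c • X) (hX1 : X ≠ 0) (hX0 : ∀ i, X i 0 = 0)
    (hY0 : ∀ i, Y i 0 = 0) : Con (Submodule.span F (Set.range t)) := by
  have hY1 : Y ≠ 0 := by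
    intro h
    apply hXY 0
    rw [h, zero_smul]
  have hXi := fun α β => @penc_col F K _ _ _ t s ht hs X hX hX0 hX1 α β
  have hYi := fun α β => @penc_col F K _ _ _ t s ht hs Y hY hY0 hY1 α β
  set A1 := ∑ i, X i 1 • t i with hA1
  set A2 := ∑ i, X i 2 • t i with hA2
  set B1 := ∑ i, Y i 1 • t i with hB1
  set B2 := ∑ i, Y i 2 • t i with hB2
  have hrel : A1 * s 1 + A2 * s 2 = 0 := by
    rw [← penc_mem.1 hX, hA1, hA2]
    simp only [Fin.sum_univ_three, hX0, zero_smul, zero_add, add_mul, smul_mul_assoc]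
    ring
  have hrelB : B1 * s 1 + B2 * s 2 = 0 := by
    rw [← penc_mem.1 hY, hB1, hB2]
    simp only [Fin.sum_univ_three, hY0, zero_smul, zero_add, add_mul, smul_mul_assoc]
    ring
  have hA1' : A1 ≠ 0 := by
    intro h
    have := (hXi 1 0 (by rw [h]; simp)).1
    exact one_ne_zero this
  have hs2 : s 2 ≠ 0 := hs.ne_zero 2
  have hs1 : s 1 ≠ 0 := hs.ne_zero 1
  have hcross : A1 * B2 = A2 * B1 := by
    apply mul_right_cancel₀ (mul_ne_zero hs1 hs2)
    linear_combination (B2 * s 2) * hrel - (A2 * s 2) * hrelB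
  set ρ := B1 / A1 with hρ
  have h1 : B1 = ρ * A1 := by rw [hρ, div_mul_cancel₀ _ hA1']
  have h2 : B2 = ρ * A2 := by
    rw [hρ]
    field_simp
    rw [mul_comm B2 A1, hcross]
    ring
  have hρF : ρ ∉ Set.range (algebraMap F K) := by
    rintro ⟨c, hc⟩
    apply hXY c
    apply penc_comb ht hX0 hY0
    · show B1 = c • A1
      rw [h1, ← hc, Algebra.smul_def]
    · show B2 = c • A2
      rw [h2, ← hc, Algebra.smul_def]
  have hmem : ∀ c : Fin 3 → F, ∑ i, c i • t i ∈ Submodule.span F (Set.range t) := fun c =>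
    Submodule.sum_mem _ fun i _ => Submodule.smul_mem _ _ (Submodule.subset_span ⟨i, rfl⟩)
  have hfin : finrank F ↥(Submodule.span F (Set.range t)) = 3 := by
    rw [finrank_span_eq_card ht]; simp
  have hfd : FiniteDimensional F ↥(Submodule.span F (Set.range t)) :=
    FiniteDimensional.of_finrank_pos (by omega)
  apply con_of hB hfin hρF
  have hli : LinearIndependent F ![B1, B2] := by
    rw [LinearIndependent.pair_iff]
    intro α β h
    exact hYi α β h
  have hfd2 : FiniteDimensional F ↥(Submodule.span F (Set.range t) ⊓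
      sc ρ (Submodule.span F (Set.range t))) := Submodule.finiteDimensional_of_le inf_le_left
  have hle : Submodule.span F (Set.range ![B1, B2]) ≤ Submodule.span F (Set.range t) ⊓
      sc ρ (Submodule.span F (Set.range t)) := by
    rw [Submodule.span_le]
    rintro _ ⟨i, rfl⟩
    fin_cases i
    · exact ⟨hmem fun i => Y i 1, penc_sc.2 ⟨A1, hmem fun i => X i 1, h1.symm⟩⟩
    · exact ⟨hmem fun i => Y i 2, penc_sc.2 ⟨A2, hmem fun i => X i 2, h2.symm⟩⟩
  have h3 := Submodule.finrank_mono hle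
  rw [finrank_span_eq_card hli] at h3
  simpa using h3

/-- case A -/
private lemma penc_A (hB : Big F K) {t s : Fin 3 → K} (ht : LinearIndependent F t)
    (hs : LinearIndependent F s) {X Y : Matrix (Fin 3) (Fin 3) F} (hX : X ∈ NN F t s)
    (hY : Y ∈ NN F t s) (hXY : ∀ c : F, Y ≠ c • X) (hX1 : X ≠ 0) {k : Fin 3 → F} (hk : k ≠ 0)
    (hXk : X *ᵥ k = 0) (hYk : Y *ᵥ k = 0) : Con (Submodule.span F (Set.range t)) := by
  obtain ⟨g, hg, hgk⟩ := penc_ext1 hk
  obtain ⟨s', hs', -, hNN⟩ := penc_base hg s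
  have hd : IsUnit g.det := (Matrix.isUnit_iff_isUnit_det g).1 hg
  have hinj : ∀ Z : Matrix (Fin 3) (Fin 3) F, Z = (Z * g) * g⁻¹ := by
    intro Z
    rw [Matrix.mul_assoc, Matrix.mul_nonsing_inv g hd, Matrix.mul_one]
  have hcol : ∀ Z : Matrix (Fin 3) (Fin 3) F, Z *ᵥ k = 0 → ∀ i, (Z * g) i 0 = 0 := by
    intro Z hZ i
    rw [Matrix.mul_apply]
    simp only [hgk]
    exact congrFun hZ i
  apply penc_A0 hB ht (hs' hs) (hNN t X hX) (hNN t Y hY) ?_ ?_ (hcol X hXk) (hcol Y hYk)
  · intro c hc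
    apply hXY c
    rw [hinj Y, hc, Matrix.smul_mul, ← hinj X]
  · intro hc
    apply hX1
    rw [hinj X, hc, Matrix.zero_mul]

private lemma penc_two {t1 t2 s1 s2 : K} (ht : ∀ α β : F, α • t1 + β • t2 = 0 → α = 0 ∧ β = 0)
    (hs : ∀ α β : F, α • s1 + β • s2 = 0 → α = 0 ∧ β = 0) {a b c d : F}
    (h : a • (t1 * s1) + b • (t1 * s2) + c • (t2 * s1) + d • (t2 * s2) = 0)
    (hdet : a * d = b * c) : a = 0 ∧ b = 0 ∧ c = 0 ∧ d = 0 := by
  simp only [Algebra.smul_def] at h ht hs
  have hd : algebraMap F K a * algebraMap F K d = algebraMap F K b * algebraMap F K c := by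
    rw [← map_mul, ← map_mul, hdet]
  by_cases ha : a = 0
  · subst ha
    rw [zero_mul] at hdet
    rw [map_zero, zero_mul, zero_add] at h
    rcases mul_eq_zero.1 hdet.symm with hb | hc
    · subst hb
      rw [map_zero, zero_mul, zero_add] at h
      have h1 : t2 * (algebraMap F K c * s1 + algebraMap F K d * s2) = 0 := by
        rw [← h]; ring
      rcases mul_eq_zero.1 h1 with h2 | h2
      · have := (ht 0 1 (by rw [h2]; simp)).2
        exact absurd this one_ne_zero
      · obtain ⟨h3, h4⟩ := hs c d h2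
        exact ⟨rfl, rfl, h3, h4⟩
    · subst hc
      have h1 : s2 * (algebraMap F K b * t1 + algebraMap F K d * t2) = 0 := by
        rw [← h, map_zero]; ring
      rcases mul_eq_zero.1 h1 with h2 | h2
      · have := (hs 0 1 (by rw [h2]; simp)).2
        exact absurd this one_ne_zero
      · obtain ⟨h3, h4⟩ := ht b d h2
        exact ⟨rfl, h3, rfl, h4⟩
  · have h1 : (algebraMap F K a * t1 + algebraMap F K c * t2) *
        (algebraMap F K a * s1 + algebraMap F K b * s2) = 0 := by
      linear_combination (algebraMap F K a) * h - t2 * s2 * hd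
    rcases mul_eq_zero.1 h1 with h2 | h2
    · exact absurd (ht a c h2).1 ha
    · exact absurd (hs a b h2).1 ha

private lemma penc_pair {s : Fin 3 → K} (hs : LinearIndependent F s) {i j : Fin 3} (hij : i ≠ j) :
    ∀ α β : F, α • s i + β • s j = 0 → α = 0 ∧ β = 0 := by
  intro α β h
  have h1 : LinearIndependent F ![s i, s j] := by
    have h2 := hs.comp ![i, j] (by
      intro x y hxy
      fin_cases x <;> fin_cases y <;> simp_all)
    convert h2 using 1
    funext x
    fin_cases x <;> rfl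
  exact LinearIndependent.pair_iff.1 h1 α β h

/-- case C in normal form -/
private lemma penc_C0 {t s : Fin 3 → K} (ht : LinearIndependent F t) (hs : LinearIndependent F s)
    {X Y : Matrix (Fin 3) (Fin 3) F} (hX : X ∈ NN F t s) (hY : Y ∈ NN F t s) (hX1 : X ≠ 0)
    (hY1 : Y ≠ 0) (hXc : ∀ i, X i 0 = 0) (hXr : ∀ i, X 0 i = 0) (hYc : ∀ i, Y i 1 = 0)
    (hYr : ∀ i, Y 1 i = 0)
    (hdet : (X.map (C : F →+* F[X]) + (Polynomial.X : F[X]) • Y.map (C : F →+* F[X])).det = 0) :
    Sim (Submodule.span F (Set.range s)) (Submodule.span F (Set.range t)) := by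
  have hrX : X 1 1 • (t 1 * s 1) + X 1 2 • (t 1 * s 2) + X 2 1 • (t 2 * s 1) +
      X 2 2 • (t 2 * s 2) = 0 := by
    rw [← penc_mem.1 hX]
    simp only [Fin.sum_univ_three, hXc, hXr, zero_smul, zero_add]
    ring
  have hrY : Y 0 0 • (t 0 * s 0) + Y 0 2 • (t 0 * s 2) + Y 2 0 • (t 2 * s 0) +
      Y 2 2 • (t 2 * s 2) = 0 := by
    rw [← penc_mem.1 hY]
    simp only [Fin.sum_univ_three, hYc, hYr, zero_smul, zero_add, add_zero]
    ring
  have hdX : X 1 1 * X 2 2 - X 1 2 * X 2 1 ≠ 0 := by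
    intro h
    obtain ⟨h1, h2, h3, h4⟩ := penc_two (penc_pair ht (by decide : (1 : Fin 3) ≠ 2))
      (penc_pair hs (by decide : (1 : Fin 3) ≠ 2)) hrX (sub_eq_zero.1 h)
    apply hX1
    ext i j
    fin_cases i <;> fin_cases j <;> simp [hXc, hXr, h1, h2, h3, h4]
  have hdY : Y 0 0 * Y 2 2 - Y 0 2 * Y 2 0 ≠ 0 := by
    intro h
    obtain ⟨h1, h2, h3, h4⟩ := penc_two (penc_pair ht (by decide : (0 : Fin 3) ≠ 2))
      (penc_pair hs (by decide : (0 : Fin 3) ≠ 2)) hrY (sub_eq_zero.1 h)
    apply hY1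
    ext i j
    fin_cases i <;> fin_cases j <;> simp [hYc, hYr, h1, h2, h3, h4]
  have hpoly : C (Y 0 0 * (X 1 1 * X 2 2 - X 1 2 * X 2 1)) * (Polynomial.X : F[X]) +
      C (X 1 1 * (Y 0 0 * Y 2 2 - Y 0 2 * Y 2 0)) * (Polynomial.X : F[X]) ^ 2 = 0 := by
    rw [← hdet, Matrix.det_fin_three]
    simp only [Matrix.add_apply, Matrix.smul_apply, Matrix.map_apply, smul_eq_mul, hXc, hXr, hYc,
      hYr, map_zero, mul_zero, zero_add, add_zero, C_mul, C_sub]
    ring
  have h00 : Y 0 0 = 0 := by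
    have h1 := congrArg (fun p => Polynomial.coeff p 1) hpoly
    simp only [coeff_add, coeff_C_mul, coeff_X_one, mul_one, coeff_zero, coeff_X_pow] at h1
    rw [if_neg (by norm_num), mul_zero, add_zero] at h1
    exact (mul_eq_zero.1 h1).resolve_right hdX
  have h11 : X 1 1 = 0 := by
    have h1 := congrArg (fun p => Polynomial.coeff p 2) hpoly
    simp only [coeff_add, coeff_C_mul, coeff_zero, coeff_X_pow, if_true, mul_one] at h1
    rw [Polynomial.coeff_X_of_ne_one (by norm_num), mul_zero, zero_add] at h1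
    exact (mul_eq_zero.1 h1).resolve_right hdY
  rw [h00] at hrY hdY
  rw [h11] at hrX hdX
  have hx21 : X 2 1 ≠ 0 := by
    intro h; apply hdX; rw [h]; ring
  have hy20 : Y 2 0 ≠ 0 := by
    intro h; apply hdY; rw [h]; ring
  have ht2 : t 2 ≠ 0 := ht.ne_zero 2
  have hs2 : s 2 ≠ 0 := hs.ne_zero 2
  have hξ : s 2 / t 2 ≠ 0 := div_ne_zero hs2 ht2
  refine ⟨s 2 / t 2, hξ, ?_⟩
  have hmem : ∀ i, t i ∈ Submodule.span F (Set.range t) := fun i => Submodule.subset_span ⟨i, rfl⟩
  have e1 : s 1 = s 2 / t 2 * (-(X 2 1)⁻¹ • (X 1 2 • t 1 + X 2 2 • t 2)) := by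
    simp only [Algebra.smul_def, map_neg, map_inv₀, map_zero, zero_mul, zero_add] at hrX ⊢
    have hx : algebraMap F K (X 2 1) ≠ 0 := by
      rwa [Ne, FaithfulSMul.algebraMap_eq_zero_iff]
    field_simp
    linear_combination hrX
  have e0 : s 0 = s 2 / t 2 * (-(Y 2 0)⁻¹ • (Y 0 2 • t 0 + Y 2 2 • t 2)) := by
    simp only [Algebra.smul_def, map_neg, map_inv₀, map_zero, zero_mul, zero_add] at hrY ⊢
    have hx : algebraMap F K (Y 2 0) ≠ 0 := by
      rwa [Ne, FaithfulSMul.algebraMap_eq_zero_iff]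
    field_simp
    linear_combination hrY
  have hle : Submodule.span F (Set.range s) ≤ sc (s 2 / t 2) (Submodule.span F (Set.range t)) := by
    rw [Submodule.span_le]
    rintro _ ⟨i, rfl⟩
    fin_cases i
    · exact penc_sc.2 ⟨_, Submodule.smul_mem _ _ (Submodule.add_mem _
        (Submodule.smul_mem _ _ (hmem 0)) (Submodule.smul_mem _ _ (hmem 2))), e0.symm⟩
    · exact penc_sc.2 ⟨_, Submodule.smul_mem _ _ (Submodule.add_mem _
        (Submodule.smul_mem _ _ (hmem 1)) (Submodule.smul_mem _ _ (hmem 2))), e1.symm⟩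
    · exact penc_sc.2 ⟨t 2, hmem 2, div_mul_cancel₀ _ ht2⟩
  have f1 : finrank F ↥(Submodule.span F (Set.range s)) = 3 := by
    rw [finrank_span_eq_card hs]; simp
  have f2 : finrank F ↥(Submodule.span F (Set.range t)) = 3 := by
    rw [finrank_span_eq_card ht]; simp
  have f3 := penc_fin_sc hξ (Submodule.span F (Set.range t))
  have hfd : FiniteDimensional F ↥(sc (s 2 / t 2) (Submodule.span F (Set.range t))) :=
    FiniteDimensional.of_finrank_pos (by omega)
  exact Submodule.eq_of_le_of_finrank_eq hle (by omega)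

private lemma penc_smul {X : Matrix (Fin 3) (Fin 3) F} {k k' : Fin 3 → F} (hk' : k' ≠ 0) {a : F}
    (ha : a • k = k') (hX : X *ᵥ k' = 0) : X *ᵥ k = 0 := by
  have ha0 : a ≠ 0 := by
    rintro rfl
    rw [zero_smul] at ha
    exact hk' ha.symm
  rw [← ha, Matrix.mulVec_smul] at hX
  exact (smul_eq_zero.1 hX).resolve_left ha0

theorem pencil (hB : Big F K) {t s : Fin 3 → K} (ht : LinearIndependent F t)
    (hs : LinearIndependent F s) {X Y : Matrix (Fin 3) (Fin 3) F} (hX : X ∈ NN F t s)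
    (hY : Y ∈ NN F t s) (hXY : LinearIndependent F ![X, Y])
    (hdet : (X.map (C : F →+* F[X]) + (Polynomial.X : F[X]) • Y.map (C : F →+* F[X])).det = 0) :
    Con (Submodule.span F (Set.range s)) ∨ Con (Submodule.span F (Set.range t)) ∨
      Sim (Submodule.span F (Set.range s)) (Submodule.span F (Set.range t)) := by
  have hX1 : X ≠ 0 := hXY.ne_zero 0
  have hY1 : Y ≠ 0 := hXY.ne_zero 1
  have hYX : ∀ c : F, Y ≠ c • X := by
    intro c hc
    exact (LinearIndependent.pair_iff' hX1).1 hXY c hc.symm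
  have hdX : X.det = 0 := by
    have h1 := Polynomial.coeff_det_X_add_C_zero Y X
    rw [add_comm, hdet, coeff_zero] at h1
    exact h1.symm
  have hdY : Y.det = 0 := by
    have h1 := Polynomial.coeff_det_X_add_C_card Y X
    rw [add_comm, hdet, coeff_zero] at h1
    exact h1.symm
  obtain ⟨k, hk, hXk⟩ := Matrix.exists_mulVec_eq_zero_iff.2 hdX
  obtain ⟨k', hk', hYk⟩ := Matrix.exists_mulVec_eq_zero_iff.2 hdY
  obtain ⟨l, hl, hXl⟩ := Matrix.exists_vecMul_eq_zero_iff.2 hdX
  obtain ⟨l', hl', hYl⟩ := Matrix.exists_vecMul_eq_zero_iff.2 hdY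
  by_cases hkk : LinearIndependent F ![k, k']
  · by_cases hll : LinearIndependent F ![l, l']
    · right; right
      obtain ⟨g, hg, hg0, hg1⟩ := penc_ext2 hkk
      obtain ⟨h, hh, hh0, hh1⟩ := penc_ext2 hll
      obtain ⟨s', hs', hss, hNs⟩ := penc_base hg s
      obtain ⟨t', ht', hts, hNt⟩ := penc_base hh t
      have hmem : ∀ Z ∈ NN F t s, ((Z * g)ᵀ * h)ᵀ ∈ NN F t' s' := by
        intro Z hZ
        rw [← penc_transpose]
        exact hNt _ _ (penc_transpose.1 (hNs _ _ hZ))
      have htr : ∀ Z : Matrix (Fin 3) (Fin 3) F, ((Z * g)ᵀ * h)ᵀ = hᵀ * (Z * g) := by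
        intro Z
        rw [Matrix.transpose_mul, Matrix.transpose_transpose]
      have hdg : IsUnit g.det := (Matrix.isUnit_iff_isUnit_det g).1 hg
      have hdh : IsUnit hᵀ.det := by
        rw [Matrix.det_transpose]
        exact (Matrix.isUnit_iff_isUnit_det h).1 hh
      have hinj : ∀ Z : Matrix (Fin 3) (Fin 3) F, hᵀ * (Z * g) = 0 → Z = 0 := by
        intro Z hZ
        have h1 : Z = (hᵀ)⁻¹ * (hᵀ * (Z * g)) * g⁻¹ := by
          rw [← Matrix.mul_assoc (hᵀ)⁻¹, Matrix.nonsing_inv_mul _ hdh, Matrix.one_mul,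
            Matrix.mul_assoc, Matrix.mul_nonsing_inv _ hdg, Matrix.mul_one]
        rw [h1, hZ, Matrix.mul_zero, Matrix.zero_mul]
      have hcol : ∀ (Z : Matrix (Fin 3) (Fin 3) F) (v : Fin 3 → F) (j : Fin 3),
          (∀ i, g i j = v i) → Z *ᵥ v = 0 → ∀ i, (hᵀ * (Z * g)) i j = 0 := by
        intro Z v j hv hZ i
        rw [Matrix.mul_apply]
        apply Finset.sum_eq_zero
        intro a _
        have h1 : (Z * g) a j = 0 := by
          rw [Matrix.mul_apply]
          simp only [hv]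
          exact congrFun hZ a
        rw [h1, mul_zero]
      have hrow : ∀ (Z : Matrix (Fin 3) (Fin 3) F) (v : Fin 3 → F) (i : Fin 3),
          (∀ j, h j i = v j) → v ᵥ* Z = 0 → ∀ j, (hᵀ * (Z * g)) i j = 0 := by
        intro Z v i hv hZ j
        rw [← Matrix.mul_assoc, Matrix.mul_apply]
        apply Finset.sum_eq_zero
        intro a _
        have h1 : (hᵀ * Z) i a = 0 := by
          rw [Matrix.mul_apply]
          simp only [Matrix.transpose_apply, hv]
          exact congrFun hZ a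
        rw [h1, zero_mul]
      have hsim := penc_C0 (ht' ht) (hs' hs) (X := hᵀ * (X * g)) (Y := hᵀ * (Y * g))
        (by rw [← htr]; exact hmem X hX) (by rw [← htr]; exact hmem Y hY)
        (fun h1 => hX1 (hinj X h1)) (fun h1 => hY1 (hinj Y h1))
        (hcol X k 0 hg0 hXk) (hrow X l 0 hh0 hXl) (hcol Y k' 1 hg1 hYk) (hrow Y l' 1 hh1 hYl) (by
          have h1 : (hᵀ * (X * g)).map (C : F →+* F[X]) +
              (Polynomial.X : F[X]) • (hᵀ * (Y * g)).map (C : F →+* F[X]) =
              hᵀ.map (C : F →+* F[X]) * ((X.map (C : F →+* F[X]) +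
                (Polynomial.X : F[X]) • Y.map (C : F →+* F[X])) * g.map (C : F →+* F[X])) := by
            rw [Matrix.map_mul, Matrix.map_mul, Matrix.map_mul, Matrix.map_mul, Matrix.add_mul,
              Matrix.mul_add, Matrix.smul_mul, Matrix.mul_smul]
          rw [h1, Matrix.det_mul, Matrix.det_mul, hdet, zero_mul, mul_zero])
      rwa [hss, hts] at hsim
    · left
      have h1 : ∃ a : F, a • l = l' := by
        by_contra hcon
        push Not at hcon
        exact hll ((LinearIndependent.pair_iff' hl).2 hcon)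
      obtain ⟨a, ha⟩ := h1
      rw [← Matrix.mulVec_transpose] at hXl hYl
      apply penc_A hB hs ht (penc_transpose.1 hX) (penc_transpose.1 hY) ?_ ?_ hl hXl
        (penc_smul hl' ha hYl)
      · intro c hc
        apply hYX c
        rw [← Matrix.transpose_transpose Y, hc, Matrix.transpose_smul, Matrix.transpose_transpose]
      · intro h1
        apply hX1
        rw [← Matrix.transpose_transpose X, h1, Matrix.transpose_zero]
  · right; left
    have h1 : ∃ a : F, a • k = k' := by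
      by_contra hcon
      push Not at hcon
      exact hkk ((LinearIndependent.pair_iff' hk).2 hcon)
    obtain ⟨a, ha⟩ := h1
    exact penc_A hB ht hs hX hY hYX hX1 hk hXk (penc_smul hk' ha hYk)

end Pool.Agent.Helper74.CW
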